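import Pool.Agent.Y581.WN.StmB
import Pool.Agent.Y626.WG.Leaf

/-!
# Project WN: the matrix as a decision tree, the choice of the subtrees, the keys
-/

set_option autoImplicit false

namespace Pool.Agent.Y907.WN

open Pool.Agent.NPC Pool.Agent.H622R2 Pool.Agent.H620R2.Gauge Pool.Agent.TH678.GC
  Pool.Agent.H591R3.PHG Pool.Agent.TH678.RS Pool.Agent.H622R2.Exp Pool.Agent.Y626.WG
  Pool.Agent.Y581.WN

/-! ### The matrix -/

theorem sing_orck {K : ℕ} (c : ℕ) (as : List ℕ) (z₀ : Idx (Fin K) (pw as) → Option Bool)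
    (B : Oracle) (n ν τ s : ℕ) (rest : List ℕ) (S : ℕ → List ℕ) (κ : ℕ → ℕ → Bool)
    (q : List Bool) :
    Sing (fun z => orck B n c ν τ s rest S κ (fo c as (val z₀ z)) q) := by
  unfold orck
  by_cases h1 : ∃ p, IsLeafk n c ν τ rest S q p
  · simp only [dif_pos h1]
    exact (sing_fo as z₀ _).comp (fun b => b == !(fl rest.length false))
  · simp only [dif_neg h1]
    by_cases h2 : ∃ p, IsKeyk n c ν τ s S q p
    · simp only [dif_pos h2]
      exact Or.inl ⟨_, fun _ => rfl⟩
    · simp only [dif_neg h2]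
      exact Or.inl ⟨B q, fun _ => rfl⟩

theorem sing_atomk {K : ℕ} (c : ℕ) (as : List ℕ) (z₀ : Idx (Fin K) (pw as) → Option Bool)
    (B : Oracle) (n ν τ s : ℕ) (rest : List ℕ) (S : ℕ → List ℕ) (κ : ℕ → ℕ → Bool)
    (I : Inst) (v : List ℕ) (a : ℕ × List ℕ) :
    Sing (fun z => I.atom (orck B n c ν τ s rest S κ (fo c as (val z₀ z))) v a) := by
  obtain ⟨r, l⟩ := a
  rcases r with _ | r
  · exact sing_orck c as z₀ B n ν τ s rest S κ _
  · exact Or.inl ⟨_, fun _ => rfl⟩

theorem t_matk : S_matk := by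
  intro K c as z₀ B n ν τ s rest S κ I v
  have h1 := DTr_list (I.atoms.map fun a (z : Idx (Fin K) (pw as) → Bool) =>
    I.atom (orck B n c ν τ s rest S κ (fo c as (val z₀ z))) v a) (by
    intro f hf
    obtain ⟨a, _, rfl⟩ := List.mem_map.1 hf
    exact sing_atomk c as z₀ B n ν τ s rest S κ I v a)
    (fun x => @decide (x ∈ I.acc) (Classical.propDecidable _))
  rw [List.length_map] at h1
  refine (congrArg (Pool.Agent.H676.DTr I.atoms.length) (funext fun z => ?_)).mp h1
  rw [List.map_map]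
  rfl

/-! ### Labels -/

theorem length_labn (n c ν j i : ℕ) : (labn n c ν j i).length = n + 1 + c + ν := by
  unfold labn
  rw [List.length_append, List.length_replicate, List.length_cons, List.length_append,
    length_bitsOf, length_bitsOf]
  ring

theorem length_flatn (n c ν j : ℕ) (v : List ℕ) :
    (v.flatMap (labn n c ν j)).length = v.length * (n + 1 + c + ν) := by
  induction v with
  | nil => simp
  | cons a v ih =>
    rw [List.flatMap_cons, List.length_append, length_labn, ih, List.length_cons]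
    ring

theorem labn_inj {n c ν j j' a a' : ℕ} (ha : a < 2 ^ ν) (ha' : a' < 2 ^ ν)
    (h : labn n c ν j a = labn n c ν j' a') : a = a' := by
  unfold labn at h
  have h1 := (List.append_inj h rfl).2
  have h2 := (List.cons.inj h1).2
  exact bitsOf_inj ha ha' (List.append_inj h2 (by rw [length_bitsOf, length_bitsOf])).2

theorem flatn_inj {n c ν j j' : ℕ} : ∀ {v v' : List ℕ}, (∀ x ∈ v, x < 2 ^ ν) →
    (∀ x ∈ v', x < 2 ^ ν) → v.flatMap (labn n c ν j) = v'.flatMap (labn n c ν j') → v = v'
  | [], [], _, _, _ => rfl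
  | [], a :: v', _, _, h => by
    have := congrArg List.length h
    rw [length_flatn, length_flatn, List.length_cons, List.length_nil] at this
    have h2 : 0 < (v'.length + 1) * (n + 1 + c + ν) := by positivity
    omega
  | a :: v, [], _, _, h => by
    have := congrArg List.length h
    rw [length_flatn, length_flatn, List.length_cons, List.length_nil] at this
    have h2 : 0 < (v.length + 1) * (n + 1 + c + ν) := by positivity
    omega
  | a :: v, a' :: v', hv, hv', h => by
    rw [List.flatMap_cons, List.flatMap_cons] at h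
    obtain ⟨h1, h2⟩ := List.append_inj h (by rw [length_labn, length_labn])
    have h3 := labn_inj (hv a (List.mem_cons_self ..)) (hv' a' (List.mem_cons_self ..)) h1
    have h4 := flatn_inj (fun x hx => hv x (List.mem_cons_of_mem _ hx))
      (fun x hx => hv' x (List.mem_cons_of_mem _ hx)) h2
    rw [h3, h4]

/-! ### The choice of the subtrees -/

theorem sm_lt {ν : ℕ} : ∀ {rest y : List ℕ}, (∀ a ∈ rest, a ≤ ν) → Sm rest y →
    ∀ x ∈ y, x < 2 ^ ν
  | [], [], _, _, x, hx => absurd hx (by simp)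
  | [], _ :: _, _, h, _, _ => absurd h (by simp [Sm])
  | _ :: _, [], _, _, x, hx => absurd hx (by simp)
  | r :: rs, y :: ys, hr, h, x, hx => by
    have h1 : y < 2 ^ r ∧ Sm rs ys := h
    rcases List.mem_cons.1 hx with rfl | hx
    · exact lt_of_lt_of_le h1.1 (Nat.pow_le_pow_right (by norm_num) (hr r (List.mem_cons_self ..)))
    · exact sm_lt (fun a ha => hr a (List.mem_cons_of_mem _ ha)) h1.2 x hx

theorem tup_ofFn {k N : ℕ} (w : Fin k → Fin N) : Tup N k (List.ofFn fun i => (w i : ℕ)) := by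
  refine ⟨List.length_ofFn, fun x hx => ?_⟩
  obtain ⟨i, rfl⟩ := (List.mem_ofFn' _ _).1 hx
  exact (w i).2

theorem ofFn_inj' {k N : ℕ} {w w' : Fin k → Fin N} (h : (List.ofFn fun i => (w i : ℕ)) =
    (List.ofFn fun i => (w' i : ℕ))) : w = w' := by
  have h2 := List.ofFn_injective h
  funext i
  exact Fin.ext (congrFun h2 i)

theorem t_selk : S_selk := by
  classical
  intro n k c ν τ s rest hk hs hrest Q h
  set Z : Finset (Fin k → Fin (2 ^ ν)) := Finset.univ.filter fun w =>
    ∃ q ∈ Q, ∃ (j : ℕ) (y : List ℕ), (∀ x ∈ y, x < 2 ^ ν) ∧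
      q = ((List.ofFn fun i => (w i : ℕ)) ++ y).flatMap (labn n c ν j) with hZ
  have h1 : Z.card ≤ Q.card := by
    have h0 : ∀ w ∈ Z, ∃ q ∈ Q, ∃ (j : ℕ) (y : List ℕ), (∀ x ∈ y, x < 2 ^ ν) ∧
      q = ((List.ofFn fun i => (w i : ℕ)) ++ y).flatMap (labn n c ν j) := fun w hw =>
      (Finset.mem_filter.1 hw).2
    choose! g hg using h0
    refine Finset.card_le_card_of_injOn g (fun w hw => (hg w hw).1) ?_
    intro w hw w' hw' he
    obtain ⟨_, j, y, hy, e⟩ := hg w hw
    obtain ⟨_, j', y', hy', e'⟩ := hg w' hw'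
    have h2 := flatn_inj (v := (List.ofFn fun i => (w i : ℕ)) ++ y)
      (v' := (List.ofFn fun i => (w' i : ℕ)) ++ y')
      (by
        intro x hx
        rcases List.mem_append.1 hx with hx | hx
        · exact (tup_ofFn w).2 x hx
        · exact hy x hx)
      (by
        intro x hx
        rcases List.mem_append.1 hx with hx | hx
        · exact (tup_ofFn w').2 x hx
        · exact hy' x hx) (e.symm.trans (he.trans e'))
    exact ofFn_inj' (List.append_inj h2 (by simp)).1
  have h2 : 2 ^ τ ≤ (Zᶜ).card := by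
    rw [Finset.card_compl, Fintype.card_fun, Fintype.card_fin, Fintype.card_fin, ← pow_mul]
    omega
  obtain ⟨W, hW1, hW2⟩ := Finset.exists_subset_card_eq h2
  have e := Finset.equivFinOfCardEq hW2
  have hno : ∀ (q : List Bool), q ∈ Q → ∀ (i : ℕ) (hi : i < 2 ^ τ) (j : ℕ) (y : List ℕ),
      (∀ x ∈ y, x < 2 ^ ν) →
      q ≠ ((List.ofFn fun a => ((e.symm ⟨i, hi⟩).1 a : ℕ)) ++ y).flatMap (labn n c ν j) := by
    intro q hq i hi j y hy h6
    have h7 := hW1 (e.symm ⟨i, hi⟩).2
    rw [Finset.mem_compl] at h7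
    exact h7 (Finset.mem_filter.2 ⟨Finset.mem_univ _, q, hq, j, y, hy, h6⟩)
  refine ⟨fun i => if h : i < 2 ^ τ then List.ofFn fun a => ((e.symm ⟨i, h⟩).1 a : ℕ) else [],
    ⟨?_, ?_⟩, ?_⟩
  · intro i hi
    rw [dif_pos hi]
    exact tup_ofFn _
  · intro i hi i' hi' h3
    rw [dif_pos hi, dif_pos hi'] at h3
    have h4 := e.symm.injective (Subtype.ext (ofFn_inj' h3))
    simpa using h4
  · intro q hq
    refine ⟨?_, ?_⟩
    · rintro ⟨⟨j, i, y⟩, h3, h4, h5, h6⟩
      dsimp only at h3 h4 h5 h6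
      rw [dif_pos h4] at h6
      exact hno q hq i h4 j y (sm_lt hrest h5) h6
    · rintro ⟨⟨j, i, m⟩, h3, h4, h5, h6⟩
      dsimp only at h3 h4 h5 h6
      rw [dif_pos h4] at h6
      refine hno q hq i h4 j [kp ν m] ?_ h6
      intro x hx
      rw [List.mem_singleton] at hx
      rw [hx]
      unfold kp
      have : 0 < 2 ^ ν := by positivity
      omega

/-! ### The keys -/

theorem t_key : S_key := by
  classical
  intro B n k c ν s j hs
  by_contra hcon
  push Not at hcon
  -- every key occurs in some window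
  set F : (Fin k → Fin (2 ^ ν)) → (Fin s → Bool) := fun w e =>
    B (((List.ofFn fun i => (w i : ℕ)) ++ [kp ν e]).flatMap (labn n c ν j)) with hF
  have hsurj : Function.Surjective F := by
    intro κ
    obtain ⟨w, hw, h1⟩ := hcon (fun e => if h : e < s then κ ⟨e, h⟩ else false)
    obtain ⟨hw1, hw2⟩ := hw
    subst hw1
    refine ⟨fun i => ⟨w.get i, hw2 _ (List.get_mem w i)⟩, ?_⟩
    funext e
    have h2 := h1 e.1 e.2
    rw [dif_pos e.2] at h2
    simp only [hF]
    rw [List.ofFn_get]
    exact h2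
  have h3 := Fintype.card_le_of_surjective F hsurj
  rw [Fintype.card_fun, Fintype.card_fun, Fintype.card_fin, Fintype.card_fin, Fintype.card_fin,
    Fintype.card_bool, ← pow_mul] at h3
  have h4 := (Nat.pow_le_pow_iff_right (by norm_num : 1 < 2)).1 h3
  omega

end Pool.Agent.Y907.WN
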